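import Pool.Agent.Lib.WE57b.RC

/-!
MP_57b0a1_lc, Q1: systems of equations with length constraints over a free group of rank at
least two are algorithmically undecidable.
-/

/-- For every `k ≥ 2` there is no computable function which decides, for every finite system of
equations over the free group of rank `k` together with a finite system of linear equations
between the lengths of the unknowns, whether there is a solution. -/
theorem Pool.Agent.Results.MP_57b0a1_lc.FreeGroups.result (k : ℕ) (hk : 2 ≤ k) :
    ¬ ∃ f : WE57b.GInst (Fin k) → Bool, Computable f ∧
      ∀ I : WE57b.GInst (Fin k), (f I = true ↔ I.Solvable) :=
  WE57b.group_undecidable k hk
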