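import Pool.Agent.Lib.WE57b.RC

/-!
MP_57b0a1_lc, Q2: systems of equations with length constraints over a free semigroup with at
least two generators are algorithmically undecidable.
-/

/-- For every alphabet with `k ≥ 2` letters there is no computable function which decides, for
every finite system of word equations over the free semigroup together with a finite system of
linear equations between the lengths of the unknowns, whether there is a solution. -/
theorem Pool.Agent.Results.MP_57b0a1_lc.FreeSemigroups.result (k : ℕ) (hk : 2 ≤ k) :
    ¬ ∃ f : WE57b.SInst (Fin k) → Bool, Computable f ∧
      ∀ I : WE57b.SInst (Fin k), I.Proper → (f I = true ↔ I.Solvable) :=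
  WE57b.semigroup_undecidable k hk
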